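import Pool.Agent.Helper27.SE.Defs

/-!
# The double Cauchy-Schwarz inequality for the additive energy
-/

set_option autoImplicit false

namespace Pool.Agent.Helper45.SE

open Finset

variable {G L : Type*} [AddCommGroup G] [DecidableEq G] [DecidableEq L]

/-- additive energy -/
def en (A : Finset G) : ℕ :=
  #{x ∈ (A ×ˢ A) ×ˢ (A ×ˢ A) | x.1.1 + x.1.2 = x.2.1 + x.2.2}

/-- pairs with the same image -/
theorem card_pairs_eq {X Y : Type*} [DecidableEq Y] (S : Finset X) (f : X → Y) (T : Finset Y)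
    (hT : ∀ x ∈ S, f x ∈ T) :
    #{x ∈ S ×ˢ S | f x.1 = f x.2} = ∑ t ∈ T, #{x ∈ S | f x = t} ^ 2 := by
  classical
  rw [card_eq_sum_card_fiberwise (f := fun x : X × X => f x.1) (t := T)]
  · refine sum_congr rfl fun t _ => ?_
    rw [sq, ← card_product]
    congr 1
    ext x
    simp only [mem_filter, mem_product]
    constructor
    · rintro ⟨⟨⟨h1, h2⟩, h3⟩, h4⟩
      exact ⟨⟨h1, h4⟩, h2, h3 ▸ h4⟩
    · rintro ⟨⟨h1, h4⟩, h2, h5⟩
      exact ⟨⟨⟨h1, h2⟩, h4.trans h5.symm⟩, h4⟩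
  · intro x hx
    simp only [coe_filter, mem_product, Set.mem_ofPred_eq] at hx
    exact hT _ hx.1.1

/-- pairs of two sets with the same image -/
theorem card_pairs_eq' {X X' Y : Type*} [DecidableEq Y] (S : Finset X) (S' : Finset X') (f : X → Y)
    (f' : X' → Y) (T : Finset Y) (hT : ∀ x ∈ S, f x ∈ T) :
    #{x ∈ S ×ˢ S' | f x.1 = f' x.2} = ∑ t ∈ T, #{x ∈ S | f x = t} * #{x ∈ S' | f' x = t} := by
  classical
  rw [card_eq_sum_card_fiberwise (f := fun x : X × X' => f x.1) (t := T)]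
  · refine sum_congr rfl fun t _ => ?_
    rw [← card_product]
    congr 1
    ext x
    simp only [mem_filter, mem_product]
    constructor
    · rintro ⟨⟨⟨h1, h2⟩, h3⟩, h4⟩
      exact ⟨⟨h1, h4⟩, h2, h3 ▸ h4⟩
    · rintro ⟨⟨h1, h4⟩, h2, h5⟩
      exact ⟨⟨⟨h1, h2⟩, h4.trans h5.symm⟩, h4⟩
  · intro x hx
    simp only [coe_filter, mem_product, Set.mem_ofPred_eq] at hx
    exact hT _ hx.1.1

/-- Cauchy-Schwarz -/
theorem sq_card_le {X Y : Type*} [DecidableEq Y] (S : Finset X) (f : X → Y) (M : ℕ)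
    (hM : #(S.image f) ≤ M) : #S ^ 2 ≤ M * #{x ∈ S ×ˢ S | f x.1 = f x.2} := by
  classical
  rw [card_pairs_eq S f (S.image f) (fun x hx => mem_image_of_mem f hx)]
  have h1 : #S = ∑ t ∈ S.image f, #{x ∈ S | f x = t} :=
    card_eq_sum_card_fiberwise (fun x hx => mem_image_of_mem f hx)
  rw [h1]
  exact (sq_sum_le_card_mul_sum_sq).trans (Nat.mul_le_mul_right _ hM)

/-- the number of representations as a sum -/
theorem card_sum_fiber (A : Finset G) (p : G × G → Prop) [DecidablePred p] (s : G) :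
    #{x ∈ A ×ˢ A | p x ∧ x.1 + x.2 = s} = #{a ∈ A | s - a ∈ A ∧ p (a, s - a)} := by
  refine card_bij' (fun x _ => x.1) (fun a _ => (a, s - a)) ?_ ?_ ?_ ?_
  · rintro ⟨a, b⟩ hx
    simp only [mem_filter, mem_product] at hx ⊢
    obtain ⟨⟨ha, hb⟩, hp, hs⟩ := hx
    have : s - a = b := by rw [← hs]; abel
    rw [this]
    exact ⟨ha, hb, hp⟩
  · intro a ha
    simp only [mem_filter, mem_product] at ha ⊢
    exact ⟨⟨ha.1, ha.2.1⟩, ha.2.2, by abel⟩
  · rintro ⟨a, b⟩ hx
    simp only [mem_filter, mem_product] at hx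
    obtain ⟨⟨ha, hb⟩, hp, hs⟩ := hx
    simp only [Prod.mk.injEq, true_and]
    rw [← hs]; abel
  · intro a _
    rfl

variable [Fintype L]

/-- **The double Cauchy-Schwarz inequality.** -/
theorem energy_le (A : Finset G) (lab : G → Option L) (M : ℕ) (Bad : Finset G)
    (h1 : ∀ s ∉ Bad, #{a ∈ A | s - a ∈ A ∧ (lab a = none ∨ lab (s - a) = none)} ≤ M)
    (h2 : ∀ s ∉ Bad, #({a ∈ A | s - a ∈ A ∧ lab a ≠ none ∧ lab (s - a) ≠ none}.image
      fun a => (lab a, lab (s - a))) ≤ M)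
    (h3 : ∀ v : G, v ≠ 0 →
      #({a ∈ A | a - v ∈ A ∧ lab a = lab (a - v) ∧ lab a ≠ none}.image lab) ≤ M) :
    en A ≤ (2 * M ^ 2 + #Bad) * #A ^ 2 +
      2 * M * (#A ^ 2 + M * ∑ τ : L, en {a ∈ A | lab a = some τ}) := by
  classical
  -- `Q`
  set Q : ℕ := #{x ∈ (A ×ˢ A) ×ˢ (A ×ˢ A) | (lab x.1.1 = lab x.2.1 ∧ lab x.1.1 ≠ none) ∧
    (lab x.1.2 = lab x.2.2 ∧ lab x.1.2 ≠ none) ∧ x.1.1 + x.1.2 = x.2.1 + x.2.2} with hQ
  -- grouping by sums
  have hA : en A ≤ (2 * M ^ 2 + #Bad) * #A ^ 2 + 2 * M * Q := by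
    set S := (A ×ˢ A).image fun x => x.1 + x.2 with hS
    have hScard : #S ≤ #A ^ 2 := by
      refine card_image_le.trans ?_
      rw [card_product, sq]
    have e1 : en A = ∑ s ∈ S, #{x ∈ A ×ˢ A | x.1 + x.2 = s} ^ 2 :=
      card_pairs_eq (A ×ˢ A) (fun x => x.1 + x.2) S fun x hx => mem_image_of_mem _ hx
    have hr : ∀ s, #{x ∈ A ×ˢ A | x.1 + x.2 = s} ≤ #A := by
      intro s
      have := card_sum_fiber A (fun _ => True) s
      simp only [true_and, and_true] at this
      rw [this]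
      exact card_filter_le _ _
    -- good labels
    set X : G → Finset (G × G) := fun s =>
      {x ∈ A ×ˢ A | (lab x.1 ≠ none ∧ lab x.2 ≠ none) ∧ x.1 + x.2 = s} with hX
    set q : G → ℕ := fun s => #{y ∈ X s ×ˢ X s | (lab y.1.1, lab y.1.2) = (lab y.2.1, lab y.2.2)}
      with hq
    have hgood : ∀ s ∉ Bad, #{x ∈ A ×ˢ A | x.1 + x.2 = s} ^ 2 ≤ 2 * M ^ 2 + 2 * M * q s := by
      intro s hs
      have e2 : #{x ∈ A ×ˢ A | x.1 + x.2 = s} ≤ M + #(X s) := by
        have e3 : {x ∈ A ×ˢ A | x.1 + x.2 = s} =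
            {x ∈ A ×ˢ A | (lab x.1 = none ∨ lab x.2 = none) ∧ x.1 + x.2 = s} ∪ X s := by
          ext x
          simp only [hX, mem_filter, mem_union, mem_product]
          constructor
          · rintro ⟨h, h'⟩
            by_cases h4 : lab x.1 = none ∨ lab x.2 = none
            · exact Or.inl ⟨h, h4, h'⟩
            · rw [not_or] at h4
              exact Or.inr ⟨h, h4, h'⟩
          · rintro (⟨h, -, h'⟩ | ⟨h, -, h'⟩)
            · exact ⟨h, h'⟩
            · exact ⟨h, h'⟩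
        rw [e3]
        refine (card_union_le _ _).trans (Nat.add_le_add_right ?_ _)
        rw [card_sum_fiber A (fun x => lab x.1 = none ∨ lab x.2 = none) s]
        exact h1 s hs
      have e4 : #(X s) ^ 2 ≤ M * q s := by
        refine sq_card_le (X s) (fun x => (lab x.1, lab x.2)) M ?_
        refine le_trans (card_le_card ?_) (h2 s hs)
        intro l hl
        rw [mem_image] at hl ⊢
        obtain ⟨⟨a, b⟩, hab, rfl⟩ := hl
        simp only [hX, mem_filter, mem_product] at hab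
        obtain ⟨⟨ha, hb⟩, hn, hs'⟩ := hab
        have hb' : s - a = b := by rw [← hs']; abel
        refine ⟨a, ?_, by rw [hb']⟩
        rw [mem_filter, hb']
        exact ⟨ha, hb, hn⟩
      calc #{x ∈ A ×ˢ A | x.1 + x.2 = s} ^ 2 ≤ (M + #(X s)) ^ 2 := Nat.pow_le_pow_left e2 2
        _ ≤ 2 * M ^ 2 + 2 * #(X s) ^ 2 := by
            have := two_mul_le_add_sq (M : ℤ) (#(X s) : ℤ)
            zify
            nlinarith
        _ ≤ 2 * M ^ 2 + 2 * M * q s := by nlinarith
    have hqQ : ∑ s ∈ S, q s ≤ Q := by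
      rw [hQ, card_eq_sum_card_fiberwise (f := fun x : (G × G) × (G × G) => x.1.1 + x.1.2)
        (t := S)]
      · refine sum_le_sum fun s _ => card_le_card ?_
        rintro ⟨⟨a, b⟩, c, d⟩ hy
        simp only [hX, mem_filter, mem_product, Prod.mk.injEq] at hy ⊢
        obtain ⟨⟨⟨⟨ha, hb⟩, ⟨hn1, hn2⟩, hs⟩, ⟨hc, hd⟩, -, hs'⟩, hl1, hl2⟩ := hy
        exact ⟨⟨⟨⟨ha, hb⟩, hc, hd⟩, ⟨hl1, hn1⟩, ⟨hl2, hn2⟩, hs.trans hs'.symm⟩, hs⟩
      · intro x hx
        simp only [coe_filter, mem_product, Set.mem_ofPred_eq] at hx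
        exact mem_image_of_mem (fun x : G × G => x.1 + x.2) (mem_product.2 hx.1.1)
    rw [e1]
    calc ∑ s ∈ S, #{x ∈ A ×ˢ A | x.1 + x.2 = s} ^ 2
        ≤ ∑ s ∈ S, ((2 * M ^ 2 + 2 * M * q s) + if s ∈ Bad then #A ^ 2 else 0) := by
          refine sum_le_sum fun s _ => ?_
          by_cases hs : s ∈ Bad
          · rw [if_pos hs]
            have := Nat.pow_le_pow_left (hr s) 2
            omega
          · rw [if_neg hs]
            exact hgood s hs
      _ = 2 * M ^ 2 * #S + 2 * M * ∑ s ∈ S, q s + ∑ s ∈ S, (if s ∈ Bad then #A ^ 2 else 0) := by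
          rw [sum_add_distrib, sum_add_distrib, sum_const, smul_eq_mul, ← mul_sum]
          ring
      _ ≤ 2 * M ^ 2 * #A ^ 2 + 2 * M * Q + #Bad * #A ^ 2 := by
          refine Nat.add_le_add (Nat.add_le_add (Nat.mul_le_mul_left _ hScard)
            (Nat.mul_le_mul_left _ hqQ)) ?_
          rw [← sum_filter, sum_const, smul_eq_mul]
          refine Nat.mul_le_mul_right _ (card_le_card ?_)
          intro s hs
          exact (mem_filter.1 hs).2
      _ = (2 * M ^ 2 + #Bad) * #A ^ 2 + 2 * M * Q := by ring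
  -- grouping by differences
  have hB : Q ≤ #A ^ 2 + M * ∑ τ : L, en {a ∈ A | lab a = some τ} := by
    set V := (A ×ˢ A).image fun x => x.1 - x.2 with hV
    set P : Finset (G × G) := {x ∈ A ×ˢ A | lab x.1 = lab x.2 ∧ lab x.1 ≠ none} with hP
    have hVcard : #V ≤ #A ^ 2 := by
      refine card_image_le.trans ?_
      rw [card_product, sq]
    -- `Q` in terms of differences
    have e1 : Q = ∑ v ∈ V, #{x ∈ P | x.1 - x.2 = v} ^ 2 := by
      have e2 := card_pairs_eq P (fun x => x.1 - x.2) V (fun x hx => by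
        rw [hP, mem_filter] at hx
        exact mem_image_of_mem (fun x : G × G => x.1 - x.2) hx.1)
      rw [← e2, hQ]
      refine card_bij' (fun x _ => ((x.1.1, x.2.1), (x.2.2, x.1.2)))
        (fun y _ => ((y.1.1, y.2.2), (y.1.2, y.2.1))) ?_ ?_ (fun x _ => rfl) (fun y _ => rfl)
      · rintro ⟨⟨a, b⟩, c, d⟩ hx
        simp only [hP, mem_filter, mem_product] at hx ⊢
        obtain ⟨⟨⟨ha, hb⟩, hc, hd⟩, ⟨l1, n1⟩, ⟨l2, n2⟩, hs⟩ := hx
        refine ⟨⟨⟨⟨ha, hc⟩, l1, n1⟩, ⟨hd, hb⟩, l2.symm, l2 ▸ n2⟩, ?_⟩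
        rw [sub_eq_sub_iff_add_eq_add]
        rw [hs, add_comm]
      · rintro ⟨⟨a, c⟩, d, b⟩ hx
        simp only [hP, mem_filter, mem_product] at hx ⊢
        obtain ⟨⟨⟨⟨ha, hc⟩, l1, n1⟩, ⟨hd, hb⟩, l2, n2⟩, hs⟩ := hx
        refine ⟨⟨⟨ha, hb⟩, hc, hd⟩, ⟨l1, n1⟩, ⟨l2.symm, l2 ▸ n2⟩, ?_⟩
        rw [sub_eq_sub_iff_add_eq_add] at hs
        rw [hs, add_comm]
    -- one difference
    have e3 : ∀ v : G, v ≠ 0 → #{x ∈ P | x.1 - x.2 = v} ^ 2 ≤
        M * ∑ τ : L, #{x ∈ {a ∈ A | lab a = some τ} ×ˢ {a ∈ A | lab a = some τ} |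
          x.1 - x.2 = v} ^ 2 := by
      intro v hv
      refine (sq_card_le {x ∈ P | x.1 - x.2 = v} (fun x => lab x.1) M ?_).trans
        (Nat.mul_le_mul_left _ ?_)
      · refine le_trans (card_le_card ?_) (h3 v hv)
        intro l hl
        rw [mem_image] at hl ⊢
        obtain ⟨⟨a, c⟩, hac, rfl⟩ := hl
        simp only [hP, mem_filter, mem_product] at hac
        obtain ⟨⟨⟨ha, hc⟩, l1, n1⟩, hs⟩ := hac
        refine ⟨a, ?_, rfl⟩
        have : a - v = c := by rw [← hs]; abel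
        rw [mem_filter, this]
        exact ⟨ha, hc, l1, n1⟩
      · rw [card_pairs_eq {x ∈ P | x.1 - x.2 = v} (fun x => lab x.1)
          (univ.image fun τ : L => some τ) (fun x hx => by
            simp only [hP, mem_filter] at hx
            obtain ⟨τ, hτ⟩ := Option.ne_none_iff_exists'.1 hx.1.2.2
            rw [hτ]
            exact mem_image_of_mem _ (mem_univ τ)),
          sum_image (fun τ _ τ' _ h => Option.some_injective _ h)]
        refine sum_le_sum fun τ _ => Nat.pow_le_pow_left (card_le_card ?_) 2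
        rintro ⟨a, c⟩ hx
        simp only [hP, mem_filter, mem_product] at hx ⊢
        obtain ⟨⟨⟨⟨ha, hc⟩, l1, n1⟩, hs⟩, hl⟩ := hx
        exact ⟨⟨⟨ha, hl⟩, hc, l1 ▸ hl⟩, hs⟩
    have e4 : #{x ∈ P | x.1 - x.2 = 0} ≤ #A := by
      refine le_trans (card_le_card (t := A.image fun a => (a, a)) ?_) card_image_le
      rintro ⟨a, c⟩ hx
      simp only [hP, mem_filter, mem_product] at hx
      rw [mem_image]
      exact ⟨a, hx.1.1.1, by rw [sub_eq_zero.1 hx.2]⟩
    have e5 : ∀ τ : L, ∑ v ∈ V, #{x ∈ {a ∈ A | lab a = some τ} ×ˢ {a ∈ A | lab a = some τ} |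
        x.1 - x.2 = v} ^ 2 = en {a ∈ A | lab a = some τ} := by
      intro τ
      set T := {a ∈ A | lab a = some τ} with hT
      have hTA : T ⊆ A := filter_subset _ _
      rw [← card_pairs_eq (T ×ˢ T) (fun x => x.1 - x.2) V (fun x hx => by
        rw [mem_product] at hx
        exact mem_image_of_mem (fun x : G × G => x.1 - x.2)
          (mem_product.2 ⟨hTA hx.1, hTA hx.2⟩)), en]
      symm
      refine card_bij' (fun x _ => ((x.1.1, x.2.1), (x.2.2, x.1.2)))
        (fun y _ => ((y.1.1, y.2.2), (y.1.2, y.2.1))) ?_ ?_ (fun x _ => rfl) (fun y _ => rfl)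
      · rintro ⟨⟨a, b⟩, c, d⟩ hx
        simp only [mem_filter, mem_product] at hx ⊢
        obtain ⟨⟨⟨ha, hb⟩, hc, hd⟩, hs⟩ := hx
        refine ⟨⟨⟨ha, hc⟩, hd, hb⟩, ?_⟩
        rw [sub_eq_sub_iff_add_eq_add, hs, add_comm]
      · rintro ⟨⟨a, c⟩, d, b⟩ hx
        simp only [mem_filter, mem_product] at hx ⊢
        obtain ⟨⟨⟨ha, hc⟩, hd, hb⟩, hs⟩ := hx
        refine ⟨⟨⟨ha, hb⟩, hc, hd⟩, ?_⟩
        rw [sub_eq_sub_iff_add_eq_add] at hs
        rw [hs, add_comm]
    rw [e1]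
    calc ∑ v ∈ V, #{x ∈ P | x.1 - x.2 = v} ^ 2
        ≤ ∑ v ∈ V, ((if v = 0 then #A ^ 2 else 0) + M * ∑ τ : L,
          #{x ∈ {a ∈ A | lab a = some τ} ×ˢ {a ∈ A | lab a = some τ} | x.1 - x.2 = v} ^ 2) := by
          refine sum_le_sum fun v _ => ?_
          by_cases hv : v = 0
          · subst hv
            rw [if_pos rfl]
            have := Nat.pow_le_pow_left e4 2
            omega
          · rw [if_neg hv, zero_add]
            exact e3 v hv
      _ = ∑ v ∈ V, (if v = 0 then #A ^ 2 else 0) + M * ∑ τ : L, en {a ∈ A | lab a = some τ} := by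
          rw [sum_add_distrib, ← mul_sum, sum_comm]
          simp_rw [e5]
      _ ≤ _ := by
          refine Nat.add_le_add_right ?_ _
          rw [sum_ite_eq']
          split_ifs
          · exact le_rfl
          · exact Nat.zero_le _
  calc en A ≤ (2 * M ^ 2 + #Bad) * #A ^ 2 + 2 * M * Q := hA
    _ ≤ _ := Nat.add_le_add_left (Nat.mul_le_mul_left _ hB) _

theorem en_eq (A : Finset G) : Pool.Agent.Helper27.SE.en A = en A := by
  unfold Pool.Agent.Helper27.SE.en en
  refine card_bij' (fun p _ => ((p.1, p.2.1), (p.2.2.1, p.2.2.2)))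
    (fun x _ => (x.1.1, x.1.2, x.2.1, x.2.2)) ?_ ?_ (fun _ _ => rfl) (fun _ _ => rfl)
  · rintro ⟨a, b, c, d⟩ h
    simp only [mem_filter, mem_product] at h ⊢
    exact ⟨⟨⟨h.1.1, h.1.2.1⟩, h.1.2.2.1, h.1.2.2.2⟩, h.2⟩
  · rintro ⟨⟨a, b⟩, c, d⟩ h
    simp only [mem_filter, mem_product] at h ⊢
    exact ⟨⟨h.1.1.1, h.1.1.2, h.1.2.1, h.1.2.2⟩, h.2⟩

omit [AddCommGroup G] [DecidableEq G] [DecidableEq L] [Fintype L] in
theorem opt_ne {good : G → Prop} [DecidablePred good] {lab : G → L} (a : G) :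
    (if good a then some (lab a) else none) ≠ none ↔ good a := by
  by_cases h : good a
  · simp [h]
  · simp [h]

omit [AddCommGroup G] [DecidableEq G] [DecidableEq L] [Fintype L] in
theorem opt_eq {good : G → Prop} [DecidablePred good] {lab : G → L} (a : G) :
    (if good a then some (lab a) else none) = none ↔ ¬ good a := by
  by_cases h : good a
  · simp [h]
  · simp [h]

/-- **SE-COUNT.** -/
theorem count (A : Finset G) (good : G → Prop) [DecidablePred good] (lab : G → L) (B : Finset G)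
    (M : ℕ)
    (h1 : ∀ s, s ∉ B → ((A.filter (fun a => s - a ∈ A)).filter
      (fun a => ¬ (good a ∧ good (s - a)))).card ≤ M)
    (h2 : ∀ s, s ∉ B → (((A.filter (fun a => s - a ∈ A)).filter
      (fun a => good a ∧ good (s - a))).image (fun a => (lab a, lab (s - a)))).card ≤ M)
    (h3 : ∀ v, v ≠ 0 → (((A.filter (fun a => a - v ∈ A)).filter
      (fun a => good a ∧ good (a - v) ∧ lab a = lab (a - v))).image lab).card ≤ M) :
    Pool.Agent.Helper27.SE.en A ≤ (2 * M ^ 2 + B.card + 2 * M) * A.card ^ 2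
      + 2 * M ^ 2 * ∑ τ : L, Pool.Agent.Helper27.SE.en (A.filter (fun a => good a ∧ lab a = τ)) := by
  classical
  have key := energy_le A (fun a => if good a then some (lab a) else none) M B ?_ ?_ ?_
  · rw [en_eq]
    simp_rw [en_eq]
    have e : ∀ τ : L, A.filter (fun a => (if good a then some (lab a) else none) = some τ) =
        A.filter (fun a => good a ∧ lab a = τ) := by
      intro τ
      refine filter_congr fun a _ => ?_
      by_cases h : good a
      · simp [h]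
      · simp [h]
    simp_rw [e] at key
    refine key.trans (le_of_eq ?_)
    ring
  · intro s hs
    refine le_trans (card_le_card ?_) (h1 s hs)
    intro a ha
    simp only [mem_filter, opt_eq] at ha ⊢
    exact ⟨⟨ha.1, ha.2.1⟩, fun h => ha.2.2.elim (fun h' => h' h.1) (fun h' => h' h.2)⟩
  · intro s hs
    refine le_trans ?_ (h2 s hs)
    rw [← card_image_of_injective (s := ((A.filter (fun a => s - a ∈ A)).filter
      (fun a => good a ∧ good (s - a))).image (fun a => (lab a, lab (s - a))))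
      (f := Prod.map some some) ((Option.some_injective _).prodMap (Option.some_injective _))]
    refine card_le_card ?_
    intro l hl
    rw [mem_image] at hl
    obtain ⟨a, ha, rfl⟩ := hl
    simp only [mem_filter, ne_eq, opt_eq, not_not] at ha
    rw [mem_image]
    refine ⟨(lab a, lab (s - a)), ?_, ?_⟩
    · rw [mem_image]
      refine ⟨a, ?_, rfl⟩
      simp only [mem_filter]
      exact ⟨⟨ha.1, ha.2.1⟩, ha.2.2⟩
    · simp [ha.2.2.1, ha.2.2.2]
  · intro v hv
    refine le_trans ?_ (h3 v hv)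
    rw [← card_image_of_injective (s := ((A.filter (fun a => a - v ∈ A)).filter
      (fun a => good a ∧ good (a - v) ∧ lab a = lab (a - v))).image lab)
      (f := some) (Option.some_injective _)]
    refine card_le_card ?_
    intro l hl
    rw [mem_image] at hl
    obtain ⟨a, ha, rfl⟩ := hl
    simp only [mem_filter, ne_eq, opt_eq, not_not] at ha
    obtain ⟨ha1, ha2, ha3, ha4⟩ := ha
    rw [if_pos ha4] at ha3
    have hg : good (a - v) := by
      by_contra h
      rw [if_neg h] at ha3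
      exact absurd ha3 (by simp)
    rw [if_pos hg] at ha3
    rw [mem_image]
    refine ⟨lab a, ?_, ?_⟩
    · rw [mem_image]
      refine ⟨a, ?_, rfl⟩
      simp only [mem_filter]
      exact ⟨⟨ha1, ha2⟩, ha4, hg, Option.some_injective _ ha3⟩
    · simp [ha4]

end Pool.Agent.Helper45.SE
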